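import Pool.Agent.X303.Five
import Pool.Agent.X303.NCThms

/-!
# The noncommutative conjecture of Beilinson for the dg categories generated by the smooth projective
varieties which are generated by
abelian varieties of dimension at most five and by products of elliptic curves and abelian surfaces

Over an algebraic closure of the field with `p` elements each abelian variety is isogenous to the
reduction of an abelian variety of CM type (Honda, Tate). So an abelian variety over the field with
`p ^ a` elements is modelled by `RedAV`: a finite product of CM types `(E i, Φ i)` with Weil numbers
`π i ∈ E i` that satisfy the formula of Shimura and Taniyama; its cohomology of degree `n`, with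
coefficients in an algebraically closed field `Ω`, consists of the alternating `n`-forms on
`Ω ⊗ H_1`, on which the Frobenius endomorphism acts by `π`.

We consider (`IsFiveOrSurfaces`) the following abelian varieties `Y`, with any Newton polygons: **all
abelian varieties of dimension at most five**, and **all products of elliptic curves and abelian
surfaces** (over an algebraic closure and up to isogeny).

`Homology Ω V` are data of motivic homology `M X i j = H_i^M(X, ℚ(j))` (higher Chow groups) and of
`ℓ`-adic homology `E X i j = H_i(X, ℚ_ℓ(j))` (coefficients extended to `Ω`) of schemes `X` over a
finite field, with the Frobenius and the regulator. The class `Generated` contains the schemes with the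
homology groups of the abelian varieties above (`IsFiveOrSurfaces`), it contains the schemes whose motives
are direct summands of finite sums of twists of motives of members, and it contains all of `Z`, `X`,
`U = X ∖ Z` if it contains two of them. For instance it contains all products of curves of genus at
most two, their symmetric powers, the Hilbert schemes of points on products of two such curves and on
abelian and Kummer surfaces, projective and flag bundles over such varieties, blow-ups, and so on.

Let `N` be data of the groups `N.K0 A` with the Euler pairings `N.χ A` of the smooth proper dg
categories `A : 𝒟`, and let `N.perf X` be the dg category of the perfect complexes on the scheme `X`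
(`EulerTheory`). For the smooth projective schemes `X` (the property `S`) of pure dimension `d` we use:
the intersection pairings of the groups `CH^*(X) ⊗ ℚ`, which are compatible with the pairings in
`ℓ`-adic cohomology, for which Poincaré duality holds (`CupData`, `IsCup`), and the Chern character with
the theorem of Hirzebruch, Riemann and Roch (`IsRiemannRoch`).

The class `EulerGenerated` contains the dg categories `perf X` for all smooth projective schemes `X` of
the class `Generated` above, and it contains the dg categories whose noncommutative motives, with
rational coefficients, are direct summands of finite sums of noncommutative motives of members
(`IsEulerSummand`: there are homomorphisms into the groups `K0` of the members with a torsion common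
kernel, given by bimodules, and these have right adjoints).
So it contains all components of the semi-orthogonal decompositions of the categories `perf X` and all
dg categories with semi-orthogonal decompositions into members, the sheaves of Azumaya algebras over
such `X`, the finite-dimensional algebras of finite global dimension, root stacks, and so on.

The theorem: for all dg categories `A` in this class the kernel of the Euler pairing on `K_0(A)` is a
torsion group: `Ker (χ_ℚ) = 0`.

Properties of the theory of cycles that are used for the abelian varieties `Y` (`IsChowS`,
`IsMotivic`): Poincaré duality, the formal properties of correspondences, the nilpotence of
homologically trivial correspondences (Kimura), the operation of the Frobenius endomorphism on higher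
Chow groups, the vanishing of the higher rational `K`-groups of a finite field (Quillen), and the
algebraicity of the classes in `AlgS` (theorems of Tate, Markman and Ramón Marí). The Tate conjecture
for the abelian varieties `Y` (all Tate classes belong to `AlgS`) is proved in the starting files. The
passage from the Tate conjecture to all degrees is due to Soulé, Geisser, Kahn and Jannsen.
-/

set_option autoImplicit false

namespace Pool.Agent.Results.MP_dd457d_ag.FiveAndSurfaces

open Pool.Agent.W495.TA Pool.Agent.W495.FM Pool.Agent.X303.TBDual

/-- The kernel of the Euler pairing is torsion for all dg categories `A` generated by the smooth
projective members of the class
generated by these abelian varieties. -/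
theorem result (p : ℕ) [Fact p.Prime] (ν : PadicAlgCl p ≃+* ℂ) (Ω : Type) [Field Ω]
    [IsAlgClosed Ω] [CharZero Ω] (V : Type) (T : Homology Ω V) (hT : IsHomology T) (S : V → Prop)
    (𝒟 : Type) (N : EulerTheory V 𝒟) (hS : ∀ X, S X → ∃ (d : ℤ) (D : CupData T X d), IsCup D ∧
    IsRiemannRoch D (N.χ (N.perf X))) (A : 𝒟) (hA : EulerGenerated N (fun X => S X ∧ Generated T
    (IsFiveOrSurfaces p ν T) X) A) (x : N.K0 A) (hx : ∀ y, N.χ A x y = 0) :
    IsOfFinAddOrder x :=
  euler_generated (fun X hX x hx => by
    obtain ⟨d, D, hD, hR⟩ := hS X hX.1
    exact euler_X (perfect hT (tb_five hT hX.2) hD) hR x hx) hA x hx

end Pool.Agent.Results.MP_dd457d_ag.FiveAndSurfaces
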