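import Mathlib
import Pool.Agent.X296.Prod.Family
import Pool.Agent.X296.Prod.TBMembers
import Pool.Agent.X303.NCThms

/-!
# The noncommutative conjecture of Beilinson for the dg categories generated by the products of a
large family of simple abelian varieties over a fixed finite field

Over an algebraic closure of the field with `p` elements each abelian variety is isogenous to the
reduction of an abelian variety of CM type (Honda, Tate). So an abelian variety over the field with
`p ^ b` elements is modelled by `RedAV`: a finite product of CM types `(E i, Φ i)` with Weil numbers
`π i ∈ E i` that satisfy the formula of Shimura and Taniyama; its cohomology of degree `n`, with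
coefficients in an algebraically closed field `Ω`, consists of the alternating `n`-forms on
`Ω ⊗ H_1`, on which the Frobenius endomorphism acts by `π`. We fix an isomorphism `ν` of the algebraic
closure of `ℚ_p` with `ℂ`.

The ground field with `q = p ^ a` elements is fixed, and so is no parameter that tends to infinity.
The theorem gives sets `S g` of Frobenius polynomials of absolutely simple ordinary abelian
varieties of dimension `g` over this field (`IsMember`, `IsLargeFamily`), that is, of isogeny classes:

* `S g` has at least `q ^ (g ^ 2 / 4 - C g log g)` members for `g ≥ g0`; the number of all isogeny
  classes of dimension `g` is `q ^ ((1 / 4 + o (1)) g ^ 2)` (DiPippo, Howe; Lipnowski, Tsimerman);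
* different members, of the same or of different dimensions, have CM fields that are not
  isomorphic (no roots of theirs generate the same field);
* each member is the Frobenius polynomial of an abelian variety in the sense of `RedAV`.

Let `𝒞` (`OfMembers`) be the class of the abelian varieties `Y` each of whose factors is
supersingular or isogenous, over a finite extension, to a power of a member: `Y` is, over an
algebraic closure, isogenous to a product of arbitrary powers of any finite number of members, of
any dimensions, and of a supersingular abelian variety.

`Homology Ω V` are data of motivic homology `M X i j = H_i^M(X, ℚ(j)) = CH_j(X, i - 2 j) ⊗ ℚ` and of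
`ℓ`-adic homology `E X i j = H_i(X, ℚ_ℓ(j))` (coefficients extended to `Ω`) of schemes `X` of finite
type over a finite field (the elements of `V`), with the Frobenius and the regulator. Let `𝒢` be the
smallest class (`Generated`) of such schemes that contains those with the homology groups of abelian
varieties in `𝒞` (`IsAbelianOfMembers`), that is closed under direct summands of finite sums of
twists of motives, and that contains all of a closed subscheme `Z` of `X`, `X` and `X ∖ Z` if it
contains two of them. It contains for instance all products of varieties in `𝒞`, all products of
curves with Jacobians in `𝒞` and of open subsets of such curves, symmetric powers of them, and the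
singular and the open varieties with a stratification by such varieties.

Let `𝒟` be a set of smooth proper dg categories with the Euler pairing on `K_0` (`EulerTheory`). The
smallest class `EulerGenerated` contains the dg categories of perfect complexes of the smooth
projective `X` in `𝒢` and is closed as in the definition. `IsRiemannRoch` is the theorem of
Grothendieck, Hirzebruch, Riemann and Roch that compares the Euler pairing with the intersection
pairing. The theorem: for all dg categories `A` in this class the kernel of the Euler pairing on
`K_0(A)` is a torsion group: `Ker (χ_ℚ) = 0`.

Properties of the theory of cycles that are used for the abelian varieties (`IsChow`,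
`IsMotivic`): Poincaré duality, the formal properties of correspondences, the nilpotence of
homologically trivial correspondences (Kimura), the operation of the Frobenius endomorphism on higher
Chow groups, the vanishing of the higher rational `K`-groups of a finite field (Quillen), and the
algebraicity of the classes in `Alg` (of which only products of classes of divisors matter here,
theorem of Tate). The passage from the Tate conjecture to all degrees and to the class `Generated` is
due to Soulé, Geisser, Kahn and Jannsen.

The proof: the members are constructed with an auxiliary prime number `l` such that an inertia
element at `l` exchanges the two elements of one complex conjugate pair of roots of each member and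
fixes all the other roots, for all members at the same time. As the fields of different members are
different, a Galois element separates these pairs, and it follows that all multiplicative relations
between the roots of any finite number of members come from the complex conjugate pairs
(`Pool.Agent.X296.Prod`).
-/

namespace Pool.Agent.Results.MP_dd457d_ag.FixedFieldProducts

open Polynomial Pool.Agent.X296.Prod

open Pool.Agent.W495.TA Pool.Agent.W495.FM

open Pool.Agent.X303.TBDual

/-- The kernel of the Euler pairing is torsion for all dg categories `A` generated by the smooth
projective varieties generated by the members. -/
def Holds {p : ℕ} [Fact p.Prime] (ν : PadicAlgCl p ≃+* ℂ) (a : ℕ) (S : Set ℤ[X]) : Prop :=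
  ∀ (Ω : Type) [Field Ω] [IsAlgClosed Ω] [CharZero Ω] (V : Type) (T : Homology Ω V), IsHomology T →
    ∀ (R : V → Prop) (𝒟 : Type) (N : EulerTheory V 𝒟),
      (∀ X, R X → ∃ (d : ℤ) (D : CupData T X d), IsCup D ∧ IsRiemannRoch D (N.χ (N.perf X))) →
      ∀ A : 𝒟, EulerGenerated N (fun X => R X ∧ Generated T (IsAbelianOfMembers ν a S T) X) A →
        ∀ x : N.K0 A, (∀ y, N.χ A x y = 0) → IsOfFinAddOrder x

theorem holds_of {p : ℕ} [Fact p.Prime] {ν : PadicAlgCl p ≃+* ℂ} {a : ℕ} {S : Set ℤ[X]}
    (h : ∀ Y : RedAV p ν, OfMembers a S Y → TH117.BL.HasElementaryRelations Y) :
    Holds ν a S := fun _ _ _ _ _ _ hT _ _ _ hS _ hA x hx =>
  euler_generated (fun X hX x hx => by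
    obtain ⟨d, D, hD, hR⟩ := hS X hX.1
    exact euler_X (perfect hT (tb_members h hT hX.2) hD) hR x hx) hA x hx

/-- **The main theorem.** -/
theorem result (p : ℕ) [Fact p.Prime] (a : ℕ) (ha : 1 ≤ a) :
    ∃ (C : ℝ) (g0 : ℕ) (S : ℕ → Finset ℤ[X]), IsLargeFamily p a C g0 S ∧
      ∀ ν : PadicAlgCl p ≃+* ℂ, Holds ν a {P | ∃ g, P ∈ S g} := by
  obtain ⟨C, g0, S, h1, h2⟩ := exists_largeFamily p a ha
  exact ⟨C, g0, S, h1, fun ν => holds_of (h2 ν)⟩

end Pool.Agent.Results.MP_dd457d_ag.FixedFieldProducts
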